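import Mathlib
import Pool.Agent.R135.QSer

/-!
# MP_12a8d1_co, Q2

For every root of unity `q₀` both sides of (2) converge in `ℂ[p][[q-q₀]]`, to the same power
series.
-/

set_option autoImplicit false

namespace Pool.Agent.Results.MP_12a8d1_co.IndeterminateExpansion

open Pool.Agent.R135.QSer

/-- The ring `ℂ[p][[v]]`, `v = q - q₀`. -/
abbrev Ser : Type := PowerSeries (Polynomial ℂ)

/-- The indeterminate `p`. -/
noncomputable def pSer : Ser := PowerSeries.C Polynomial.X

/-- The expansion `q₀ + v` of `q`. -/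
noncomputable def qSer (q₀ : ℂ) : Ser := PowerSeries.C (Polynomial.C q₀) + PowerSeries.X

/-- The expansion of `1/q`: the inverse of `q₀ + v` in `ℂ[[v]]` (for `q₀ ≠ 0`), seen in
`ℂ[p][[v]]`. -/
noncomputable def qInv (q₀ : ℂ) : Ser :=
  PowerSeries.map Polynomial.C (PowerSeries.C q₀ + PowerSeries.X : PowerSeries ℂ)⁻¹

/-- The expansion of the summand `p q^n (p; q)_n (q; q)_n` of the left-hand side of (2). -/
noncomputable def lhsTerm (q₀ : ℂ) (n : ℕ) : Ser :=
  pSer * qSer q₀ ^ n * poch pSer (qSer q₀) n * poch (qSer q₀) (qSer q₀) n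

/-- The expansion of the summand `(p/q)^{n+1} (1/q; 1/q)_n` of the right-hand side of (2). -/
noncomputable def rhsTerm (q₀ : ℂ) (n : ℕ) : Ser :=
  (pSer * qInv q₀) ^ (n + 1) * poch (qInv q₀) (qInv q₀) n

/-- `∑ f n` converges: for every `m` only finitely many summands have a nonzero coefficient of
`v^m`. -/
def Converges (f : ℕ → Ser) : Prop :=
  ∀ m : ℕ, {n : ℕ | PowerSeries.coeff m (f n) ≠ 0}.Finite

/-- The value of a convergent sum: the coefficientwise sum. -/
noncomputable def value (f : ℕ → Ser) : Ser :=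
  PowerSeries.mk fun m => ∑ᶠ n : ℕ, PowerSeries.coeff m (f n)

/-- the ideal `(v)` -/
noncomputable def vI : Ideal Ser := RingHom.ker (PowerSeries.constantCoeff (R := Polynomial ℂ))

theorem coeff_eq_zero_of_mem_pow (M : ℕ) (f : Ser) (hf : f ∈ vI ^ M) (d : ℕ)
    (hd : d < M) : PowerSeries.coeff d f = 0 := by
  induction M generalizing f d with
  | zero => omega
  | succ M ih =>
    rw [pow_succ] at hf
    refine Submodule.mul_induction_on hf ?_ ?_
    · intro a ha b hb
      rw [PowerSeries.coeff_mul]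
      apply Finset.sum_eq_zero
      rintro ⟨x, y⟩ hxy
      rw [Finset.HasAntidiagonal.mem_antidiagonal] at hxy
      simp only at hxy ⊢
      by_cases hy : y = 0
      · have : PowerSeries.coeff y b = 0 := by
          rw [hy, PowerSeries.coeff_zero_eq_constantCoeff]
          exact hb
        rw [this, mul_zero]
      · rw [ih a ha x (by omega), zero_mul]
    · intro a b ha hb
      rw [map_add, ha, hb, add_zero]

theorem q_mul_inv (q₀ : ℂ) (h : q₀ ≠ 0) : qSer q₀ * qInv q₀ = 1 := by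
  have h1 : qSer q₀ = PowerSeries.map Polynomial.C (PowerSeries.C q₀ + PowerSeries.X) := by
    rw [map_add, PowerSeries.map_C, PowerSeries.map_X]; rfl
  rw [h1, qInv, ← map_mul, PowerSeries.mul_inv_cancel, map_one]
  simpa using h

theorem constantCoeff_qSer (q₀ : ℂ) :
    PowerSeries.constantCoeff (qSer q₀) = Polynomial.C q₀ := by
  simp [qSer]

theorem constantCoeff_qInv (q₀ : ℂ) (h : q₀ ≠ 0) :
    PowerSeries.constantCoeff (qInv q₀) = Polynomial.C q₀⁻¹ := by
  have h1 := congrArg (PowerSeries.constantCoeff) (q_mul_inv q₀ h)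
  rw [map_mul, constantCoeff_qSer, map_one] at h1
  calc PowerSeries.constantCoeff (qInv q₀)
      = Polynomial.C q₀⁻¹ * (Polynomial.C q₀ * PowerSeries.constantCoeff (qInv q₀)) := by
        rw [← mul_assoc, ← Polynomial.C_mul, inv_mul_cancel₀ h, Polynomial.C_1, one_mul]
    _ = _ := by rw [h1, mul_one]

theorem exists_index (k : ℕ) (hk : 1 ≤ k) (i : ℕ) :
    ∃ j, i ≤ j ∧ j < i + k ∧ ∃ l, j + 1 = k * l := by
  refine ⟨k * (i / k) + (k - 1), ?_, ?_, i / k + 1, ?_⟩
  · have := Nat.div_add_mod i k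
    have := Nat.mod_lt i (by omega : 0 < k)
    omega
  · have := Nat.div_add_mod i k
    omega
  · rw [mul_add, mul_one]; omega

theorem poch_inv_mem (q₀ : ℂ) (k : ℕ) (hk : 1 ≤ k) (hq : q₀ ^ k = 1) (h0 : q₀ ≠ 0) (M n : ℕ)
    (hn : k * M ≤ n) : poch (qInv q₀) (qInv q₀) n ∈ vI ^ M := by
  refine poch_mem_pow vI _ _ k ?_ M n hn
  intro i
  obtain ⟨j, h1, h2, l, h3⟩ := exists_index k hk i
  refine ⟨j, h1, h2, ?_⟩
  change PowerSeries.constantCoeff _ = 0
  rw [← pow_succ', h3, map_sub, map_pow, map_one, constantCoeff_qInv q₀ h0, ← Polynomial.C_pow,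
    pow_mul, inv_pow, hq]
  simp

theorem poch_q_mem (q₀ : ℂ) (k : ℕ) (hk : 1 ≤ k) (hq : q₀ ^ k = 1) (M n : ℕ)
    (hn : k * M ≤ n) : poch (qSer q₀) (qSer q₀) n ∈ vI ^ M := by
  refine poch_mem_pow vI _ _ k ?_ M n hn
  intro i
  obtain ⟨j, h1, h2, l, h3⟩ := exists_index k hk i
  refine ⟨j, h1, h2, ?_⟩
  change PowerSeries.constantCoeff _ = 0
  rw [← pow_succ', h3, map_sub, map_pow, map_one, constantCoeff_qSer, ← Polynomial.C_pow,
    pow_mul, hq]
  simp

theorem rhs_coeff_zero (q₀ : ℂ) (k : ℕ) (hk : 1 ≤ k) (hq : q₀ ^ k = 1) (h0 : q₀ ≠ 0) (P : Ser)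
    (d n : ℕ) (hn : k * (d + 1) ≤ n) :
    PowerSeries.coeff d (rterm P (qInv q₀) n) = 0 := by
  apply coeff_eq_zero_of_mem_pow (d + 1) _ _ d (by omega)
  exact Ideal.mul_mem_left _ _ (poch_inv_mem q₀ k hk hq h0 _ n hn)

theorem lhs_coeff_zero (q₀ : ℂ) (k : ℕ) (hk : 1 ≤ k) (hq : q₀ ^ k = 1) (P : Ser)
    (d n : ℕ) (hn : k * (d + 1) ≤ n) :
    PowerSeries.coeff d (aterm P (qSer q₀) n) = 0 := by
  apply coeff_eq_zero_of_mem_pow (d + 1) _ _ d (by omega)
  exact Ideal.mul_mem_left _ _ (poch_q_mem q₀ k hk hq _ n hn)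

/-- the algebraic heart: a family of polynomials with
`p q₀^i d_i = (p q₀^i - 1) d_{i+1}` vanishes -/
theorem family_eq_zero (q₀ : ℂ) (k : ℕ) (hk : 1 ≤ k) (hq : q₀ ^ k = 1) (h0 : q₀ ≠ 0)
    (d : ℕ → Polynomial ℂ)
    (hd : ∀ i, (Polynomial.X * Polynomial.C (q₀ ^ i)) * d i =
      (Polynomial.X * Polynomial.C (q₀ ^ i) - 1) * d (i + 1)) (i : ℕ) : d i = 0 := by
  have hcop : ∀ M : ℕ, IsCoprime ((Polynomial.X - 1 : Polynomial ℂ) ^ M) Polynomial.X := by
    intro M
    apply IsCoprime.pow_left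
    exact ⟨-1, 1, by ring⟩
  have hcancel : ∀ (M i : ℕ), (Polynomial.X - 1 : Polynomial ℂ) ^ M ∣
      (Polynomial.X * Polynomial.C (q₀ ^ i)) * d i → (Polynomial.X - 1 : Polynomial ℂ) ^ M ∣ d i := by
    intro M i h
    rw [mul_assoc] at h
    have h1 := (hcop M).dvd_of_dvd_mul_left h
    have h2 : d i = Polynomial.C (q₀ ^ i)⁻¹ * (Polynomial.C (q₀ ^ i) * d i) := by
      rw [← mul_assoc, ← Polynomial.C_mul, inv_mul_cancel₀ (pow_ne_zero _ h0), Polynomial.C_1,
        one_mul]
    rw [h2]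
    exact Dvd.dvd.mul_left h1 _
  have hall : ∀ M i, (Polynomial.X - 1 : Polynomial ℂ) ^ M ∣ d i := by
    intro M
    induction M with
    | zero => intro i; simp
    | succ M ih =>
      -- go down from an index `k * l`
      have key : ∀ l e i, i + e = k * l → (Polynomial.X - 1 : Polynomial ℂ) ^ (M + 1) ∣ d i := by
        intro l e
        induction e with
        | zero =>
          intro i hi
          apply hcancel
          rw [hd i]
          have : q₀ ^ i = 1 := by
            rw [add_zero] at hi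
            rw [hi, pow_mul, hq, one_pow]
          rw [this, Polynomial.C_1, mul_one, pow_succ']
          exact mul_dvd_mul_left _ (ih (i + 1))
        | succ e ihe =>
          intro i hi
          apply hcancel
          rw [hd i]
          exact Dvd.dvd.mul_left (ihe (i + 1) (by omega)) _
      intro i
      refine key i (k * i - i) i ?_
      have : i ≤ k * i := Nat.le_mul_of_pos_left i hk
      omega
  by_contra hne
  have h1 := hall ((d i).natDegree + 1) i
  have h2 := Polynomial.natDegree_le_of_dvd h1 hne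
  have h3 : ((Polynomial.X - 1 : Polynomial ℂ) ^ ((d i).natDegree + 1)).natDegree =
      (d i).natDegree + 1 := by
    rw [Polynomial.natDegree_pow]
    have : (Polynomial.X - 1 : Polynomial ℂ) = Polynomial.X - Polynomial.C 1 := by simp
    rw [this, Polynomial.natDegree_X_sub_C, mul_one]
  omega

/-- If all coefficients of `D` below `m` vanish, then the coefficient of `v^m` in `a D` is
`a(0)` times the coefficient of `D`. -/
theorem coeff_mul_of_lower (m : ℕ) (a D : Ser) (h : ∀ j < m, PowerSeries.coeff j D = 0) :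
    PowerSeries.coeff m (a * D) = PowerSeries.constantCoeff a * PowerSeries.coeff m D := by
  rw [PowerSeries.coeff_mul, Finset.sum_eq_single (0, m)]
  · simp
  · rintro ⟨x, y⟩ hxy hne
    rw [Finset.HasAntidiagonal.mem_antidiagonal] at hxy
    simp only at hxy ⊢
    have : y < m := by
      rcases Nat.lt_or_ge y m with h1 | h1
      · exact h1
      · exfalso
        apply hne
        have h2 : x = 0 := by omega
        have h3 : y = m := by omega
        rw [h2, h3]
    rw [h y this, mul_zero]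
  · intro h1
    exact absurd (by rw [Finset.HasAntidiagonal.mem_antidiagonal]; simp) h1

theorem finite_of_eventually (f : ℕ → Polynomial ℂ) (N : ℕ) (h : ∀ n, N ≤ n → f n = 0) :
    {n : ℕ | f n ≠ 0}.Finite := by
  apply (Set.finite_lt_nat N).subset
  intro n hn
  by_contra h'
  exact hn (h n (not_lt.mp h'))

theorem finsum_eq_of_eventually (f : ℕ → Polynomial ℂ) (N : ℕ) (h : ∀ n, N ≤ n → f n = 0) :
    ∑ᶠ n, f n = ∑ n ∈ Finset.range N, f n := by
  apply finsum_eq_sum_of_support_subset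
  intro n hn
  rw [Finset.coe_range, Set.mem_Iio]
  by_contra h'
  exact hn (h n (not_lt.mp h'))

/-- the difference of the partial sums, with `p` replaced by `p q^i` -/
noncomputable def diff (q₀ : ℂ) (N i : ℕ) : Ser :=
  (∑ n ∈ Finset.range N, aterm (pSer * qSer q₀ ^ i) (qSer q₀) n) -
    ∑ n ∈ Finset.range N, rterm (pSer * qSer q₀ ^ i) (qInv q₀) n

theorem diff_rec (q₀ : ℂ) (h0 : q₀ ≠ 0) (N i : ℕ) :
    (pSer * qSer q₀ ^ i) * diff q₀ N i = (pSer * qSer q₀ ^ i - 1) * diff q₀ N (i + 1) -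
      ((pSer * qSer q₀ ^ i) * (poch (pSer * qSer q₀ ^ i) (qSer q₀) N) *
        poch (qSer q₀) (qSer q₀) N) +
      ((pSer * qSer q₀ ^ i) * (pSer * qSer q₀ ^ i) ^ N) * poch (qInv q₀) (qInv q₀) N := by
  have h1 := asum_rec (pSer * qSer q₀ ^ i) (qSer q₀) N
  have h2 := rsum_rec (pSer * qSer q₀ ^ i) (qSer q₀) (qInv q₀) (q_mul_inv q₀ h0) N
  have e : pSer * qSer q₀ ^ i * qSer q₀ = pSer * qSer q₀ ^ (i + 1) := by ring
  rw [e] at h1 h2
  unfold diff
  linear_combination h1 - h2

theorem coeff_diff (q₀ : ℂ) (k : ℕ) (hk : 1 ≤ k) (hq : q₀ ^ k = 1) (h0 : q₀ ≠ 0) (N m : ℕ)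
    (hN : k * (m + 1) ≤ N) : ∀ i, PowerSeries.coeff m (diff q₀ N i) = 0 := by
  induction m using Nat.strong_induction_on with
  | _ m ih =>
    have hlow : ∀ i, ∀ j < m, PowerSeries.coeff j (diff q₀ N i) = 0 := by
      intro i j hj
      apply ih j hj
      refine le_trans ?_ hN
      exact Nat.mul_le_mul_left k (by omega)
    apply family_eq_zero q₀ k hk hq h0
    intro i
    have h1 := congrArg (PowerSeries.coeff m) (diff_rec q₀ h0 N i)
    rw [map_add, map_sub, coeff_mul_of_lower m _ _ (hlow i),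
      coeff_mul_of_lower m _ _ (hlow (i + 1))] at h1
    have e1 : PowerSeries.coeff m ((pSer * qSer q₀ ^ i) *
        (poch (pSer * qSer q₀ ^ i) (qSer q₀) N) * poch (qSer q₀) (qSer q₀) N) = 0 :=
      coeff_eq_zero_of_mem_pow (m + 1) _
        (Ideal.mul_mem_left _ _ (poch_q_mem q₀ k hk hq _ N hN)) m (by omega)
    have e2 : PowerSeries.coeff m (((pSer * qSer q₀ ^ i) * (pSer * qSer q₀ ^ i) ^ N) *
        poch (qInv q₀) (qInv q₀) N) = 0 :=
      coeff_eq_zero_of_mem_pow (m + 1) _
        (Ideal.mul_mem_left _ _ (poch_inv_mem q₀ k hk hq h0 _ N hN)) m (by omega)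
    rw [e1, e2, sub_zero, add_zero, map_sub, map_mul, map_pow, map_one, constantCoeff_qSer] at h1
    have e3 : PowerSeries.constantCoeff pSer = (Polynomial.X : Polynomial ℂ) := by
      simp [pSer]
    rw [e3, ← Polynomial.C_pow] at h1
    exact h1

/-- **Main theorem.** For every complex root of unity `q₀`, both sides of (2) converge in
`ℂ[p][[q-q₀]]`, and they converge to the same power series. -/
theorem result (k : ℕ) (hk : 1 ≤ k) (q₀ : ℂ) (hq : q₀ ^ k = 1) :
    Converges (lhsTerm q₀) ∧ Converges (rhsTerm q₀) ∧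
      value (lhsTerm q₀) = value (rhsTerm q₀) := by
  have h0 : q₀ ≠ 0 := by
    rintro rfl
    rw [zero_pow (by omega)] at hq
    exact zero_ne_one hq
  have hl : ∀ d n, k * (d + 1) ≤ n → PowerSeries.coeff d (lhsTerm q₀ n) = 0 :=
    fun d n hn => lhs_coeff_zero q₀ k hk hq pSer d n hn
  have hr : ∀ d n, k * (d + 1) ≤ n → PowerSeries.coeff d (rhsTerm q₀ n) = 0 :=
    fun d n hn => rhs_coeff_zero q₀ k hk hq h0 pSer d n hn
  refine ⟨fun d => finite_of_eventually _ _ (hl d), fun d => finite_of_eventually _ _ (hr d), ?_⟩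
  ext1 d
  unfold value
  rw [PowerSeries.coeff_mk, PowerSeries.coeff_mk, finsum_eq_of_eventually _ _ (hl d),
    finsum_eq_of_eventually _ _ (hr d)]
  have h1 := coeff_diff q₀ k hk hq h0 (k * (d + 1)) d le_rfl 0
  unfold diff at h1
  rw [map_sub, map_sum, map_sum, pow_zero, mul_one] at h1
  exact sub_eq_zero.mp h1

end Pool.Agent.Results.MP_12a8d1_co.IndeterminateExpansion
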