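import Mathlib
import Pool.Agent.R135.QSer

/-!
# MP_12a8d1_co, Q1

At roots of unity `p₀, q₀` the right-hand side of (1) always converges in `ℂ[[p-p₀, q-q₀]]`, the
left-hand side converges exactly when `p₀ q₀^j = 1` for some `j`, and then the two sides agree.
-/

set_option autoImplicit false

namespace Pool.Agent.Results.MP_12a8d1_co.RootOfUnityExpansion

open Pool.Agent.R135.QSer

/-- The ring `ℂ[[u, v]]`, `u = p - p₀`, `v = q - q₀`. -/
abbrev Ser : Type := MvPowerSeries (Fin 2) ℂ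

/-- The expansion `p₀ + u` of `p`. -/
noncomputable def pSer (p₀ : ℂ) : Ser := MvPowerSeries.C p₀ + MvPowerSeries.X 0

/-- The expansion `q₀ + v` of `q`. -/
noncomputable def qSer (q₀ : ℂ) : Ser := MvPowerSeries.C q₀ + MvPowerSeries.X 1

/-- The expansion of the summand `(1/p; 1/q)_n` of the left-hand side of (1). (For `p₀, q₀ ≠ 0`,
`(pSer p₀)⁻¹` and `(qSer q₀)⁻¹` are the inverses in `ℂ[[u, v]]`.) -/
noncomputable def lhsTerm (p₀ q₀ : ℂ) (n : ℕ) : Ser :=
  poch (pSer p₀)⁻¹ (qSer q₀)⁻¹ n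

/-- The expansion of the summand `(p/q)^{n+1} (1/q; 1/q)_n` of the right-hand side of (1). -/
noncomputable def rhsTerm (p₀ q₀ : ℂ) (n : ℕ) : Ser :=
  (pSer p₀ * (qSer q₀)⁻¹) ^ (n + 1) * poch (qSer q₀)⁻¹ (qSer q₀)⁻¹ n

/-- `∑ f n` converges: for every monomial only finitely many summands have a nonzero
coefficient. -/
def Converges (f : ℕ → Ser) : Prop :=
  ∀ d : Fin 2 →₀ ℕ, {n : ℕ | MvPowerSeries.coeff d (f n) ≠ 0}.Finite

/-- The value of a convergent sum: the coefficientwise sum. -/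
noncomputable def value (f : ℕ → Ser) : Ser := fun d => ∑ᶠ n : ℕ, MvPowerSeries.coeff d (f n)

/-- the maximal ideal -/
noncomputable def mI : Ideal Ser := RingHom.ker (MvPowerSeries.constantCoeff (σ := Fin 2) (R := ℂ))

theorem coeff_eq_zero_of_mem_pow (M : ℕ) (f : Ser) (hf : f ∈ mI ^ M) (d : Fin 2 →₀ ℕ)
    (hd : d.degree < M) : MvPowerSeries.coeff d f = 0 := by
  induction M generalizing f d with
  | zero => omega
  | succ M ih =>
    rw [pow_succ] at hf
    refine Submodule.mul_induction_on hf ?_ ?_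
    · intro a ha b hb
      rw [MvPowerSeries.coeff_mul]
      apply Finset.sum_eq_zero
      rintro ⟨x, y⟩ hxy
      rw [Finset.HasAntidiagonal.mem_antidiagonal] at hxy
      simp only at hxy ⊢
      by_cases hy : y = 0
      · have : MvPowerSeries.coeff y b = 0 := by
          rw [hy, MvPowerSeries.coeff_zero_eq_constantCoeff]
          exact hb
        rw [this, mul_zero]
      · have h1 : 1 ≤ y.degree := by
          rw [Nat.one_le_iff_ne_zero]
          intro h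
          exact hy ((Finsupp.degree_eq_zero_iff y).mp h)
        have h2 : x.degree + y.degree = d.degree := by
          rw [← hxy, map_add]
        rw [ih a ha x (by omega), zero_mul]
    · intro a b ha hb
      rw [map_add, ha, hb, add_zero]

theorem constantCoeff_pSer (p₀ : ℂ) : MvPowerSeries.constantCoeff (pSer p₀) = p₀ := by
  simp [pSer]

theorem constantCoeff_qSer (q₀ : ℂ) : MvPowerSeries.constantCoeff (qSer q₀) = q₀ := by
  simp [qSer]

theorem p_mul_inv (p₀ : ℂ) (h : p₀ ≠ 0) : pSer p₀ * (pSer p₀)⁻¹ = 1 :=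
  MvPowerSeries.mul_inv_cancel _ (by rwa [constantCoeff_pSer])

theorem q_mul_inv (q₀ : ℂ) (h : q₀ ≠ 0) : qSer q₀ * (qSer q₀)⁻¹ = 1 :=
  MvPowerSeries.mul_inv_cancel _ (by rwa [constantCoeff_qSer])

theorem constantCoeff_factor (p₀ q₀ : ℂ) (j : ℕ) :
    MvPowerSeries.constantCoeff (1 - (pSer p₀)⁻¹ * (qSer q₀)⁻¹ ^ j) = 1 - p₀⁻¹ * q₀⁻¹ ^ j := by
  rw [map_sub, map_mul, map_pow, map_one, MvPowerSeries.constantCoeff_inv,
    MvPowerSeries.constantCoeff_inv, constantCoeff_pSer, constantCoeff_qSer]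

theorem constantCoeff_factor' (q₀ : ℂ) (j : ℕ) :
    MvPowerSeries.constantCoeff (1 - (qSer q₀)⁻¹ * (qSer q₀)⁻¹ ^ j) = 1 - q₀⁻¹ * q₀⁻¹ ^ j := by
  rw [map_sub, map_mul, map_pow, map_one, MvPowerSeries.constantCoeff_inv, constantCoeff_qSer]

theorem poch_q_mem (q₀ : ℂ) (k : ℕ) (hk : 1 ≤ k) (hq : q₀ ^ k = 1) (M n : ℕ) (hn : k * M ≤ n) :
    poch (qSer q₀)⁻¹ (qSer q₀)⁻¹ n ∈ mI ^ M := by
  refine poch_mem_pow mI _ _ k ?_ M n hn
  intro i
  -- `j + 1` is the multiple of `k` in `(i, i + k]`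
  refine ⟨k * (i / k) + (k - 1), ?_, ?_, ?_⟩
  · have := Nat.div_add_mod i k
    have := Nat.mod_lt i (by omega : 0 < k)
    omega
  · have := Nat.div_add_mod i k
    omega
  · change MvPowerSeries.constantCoeff _ = 0
    rw [constantCoeff_factor', ← pow_succ']
    have : k * (i / k) + (k - 1) + 1 = k * (i / k + 1) := by
      rw [mul_add, mul_one]; omega
    rw [this, pow_mul, inv_pow, hq]
    simp

theorem poch_pq_mem (p₀ q₀ : ℂ) (k : ℕ) (hk : 1 ≤ k) (hq : q₀ ^ k = 1) (j₀ : ℕ)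
    (hj : p₀ * q₀ ^ j₀ = 1) (M n : ℕ) (hn : k * M ≤ n) :
    poch (pSer p₀)⁻¹ (qSer q₀)⁻¹ n ∈ mI ^ M := by
  refine poch_mem_pow mI _ _ k ?_ M n hn
  intro i
  -- the residue class of `j₀` modulo `k` meets `[i, i + k)`
  refine ⟨i + (j₀ + (k - 1) * i) % k, by omega, ?_, ?_⟩
  · have := Nat.mod_lt (j₀ + (k - 1) * i) (by omega : 0 < k)
    omega
  · change MvPowerSeries.constantCoeff _ = 0
    rw [constantCoeff_factor]
    have hmod : (i + (j₀ + (k - 1) * i) % k) % k = j₀ % k := by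
      rw [Nat.add_mod, Nat.mod_mod, ← Nat.add_mod]
      have : i + (j₀ + (k - 1) * i) = j₀ + k * i := by
        obtain ⟨l, rfl⟩ : ∃ l, k = l + 1 := ⟨k - 1, by omega⟩
        rw [Nat.add_sub_cancel]
        ring
      rw [this, Nat.add_mul_mod_self_left]
    have hpow : q₀ ^ (i + (j₀ + (k - 1) * i) % k) = q₀ ^ j₀ := by
      rw [pow_eq_pow_mod _ hq, hmod, ← pow_eq_pow_mod _ hq]
    rw [inv_pow, hpow, ← mul_inv, hj]
    simp

theorem rhs_coeff_zero (p₀ q₀ : ℂ) (k : ℕ) (hk : 1 ≤ k) (hq : q₀ ^ k = 1) (d : Fin 2 →₀ ℕ) (n : ℕ)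
    (hn : k * (d.degree + 1) ≤ n) : MvPowerSeries.coeff d (rhsTerm p₀ q₀ n) = 0 := by
  apply coeff_eq_zero_of_mem_pow (d.degree + 1) _ _ d (by omega)
  exact Ideal.mul_mem_left _ _ (poch_q_mem q₀ k hk hq _ n hn)

theorem lhs_coeff_zero (p₀ q₀ : ℂ) (k : ℕ) (hk : 1 ≤ k) (hq : q₀ ^ k = 1) (j₀ : ℕ)
    (hj : p₀ * q₀ ^ j₀ = 1) (d : Fin 2 →₀ ℕ) (n : ℕ)
    (hn : k * (d.degree + 1) ≤ n) : MvPowerSeries.coeff d (lhsTerm p₀ q₀ n) = 0 :=
  coeff_eq_zero_of_mem_pow (d.degree + 1) _ (poch_pq_mem p₀ q₀ k hk hq j₀ hj _ n hn) d (by omega)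

theorem finite_of_eventually (f : ℕ → ℂ) (N : ℕ) (h : ∀ n, N ≤ n → f n = 0) :
    {n : ℕ | f n ≠ 0}.Finite := by
  apply (Set.finite_lt_nat N).subset
  intro n hn
  by_contra h'
  exact hn (h n (not_lt.mp h'))

theorem finsum_eq_of_eventually (f : ℕ → ℂ) (N : ℕ) (h : ∀ n, N ≤ n → f n = 0) :
    ∑ᶠ n, f n = ∑ n ∈ Finset.range N, f n := by
  apply finsum_eq_sum_of_support_subset
  intro n hn
  rw [Finset.coe_range, Set.mem_Iio]
  by_contra h'
  exact hn (h n (not_lt.mp h'))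

/-- **Main theorem.** Let `p₀, q₀` be `k`-th roots of unity, `k ≥ 1`. The right-hand side of (1)
converges in `ℂ[[p-p₀, q-q₀]]`; the left-hand side converges if and only if `p₀ q₀^j = 1` for some
`j ≥ 0`; and if both sides converge then they converge to the same power series. -/
theorem result (k : ℕ) (hk : 1 ≤ k) (p₀ q₀ : ℂ) (hp : p₀ ^ k = 1) (hq : q₀ ^ k = 1) :
    Converges (rhsTerm p₀ q₀) ∧
    (Converges (lhsTerm p₀ q₀) ↔ ∃ j : ℕ, p₀ * q₀ ^ j = 1) ∧
    (Converges (lhsTerm p₀ q₀) → Converges (rhsTerm p₀ q₀) →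
      value (lhsTerm p₀ q₀) = value (rhsTerm p₀ q₀)) := by
  have hp0 : p₀ ≠ 0 := by
    rintro rfl
    rw [zero_pow (by omega)] at hp
    exact zero_ne_one hp
  have hq0 : q₀ ≠ 0 := by
    rintro rfl
    rw [zero_pow (by omega)] at hq
    exact zero_ne_one hq
  have hconv : Converges (lhsTerm p₀ q₀) → ∃ j : ℕ, p₀ * q₀ ^ j = 1 := by
    intro h
    by_contra hne
    push Not at hne
    have h0 := h 0
    apply Set.infinite_univ (α := ℕ)
    apply h0.subset
    intro n _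
    rw [Set.mem_ofPred_eq, MvPowerSeries.coeff_zero_eq_constantCoeff, lhsTerm, poch, map_prod,
      Finset.prod_ne_zero_iff]
    intro j _
    rw [constantCoeff_factor]
    intro h1
    apply hne j
    have h2 : p₀⁻¹ * q₀⁻¹ ^ j = 1 := by linear_combination -h1
    rw [inv_pow, ← mul_inv] at h2
    exact inv_eq_one.mp h2
  refine ⟨?_, ⟨hconv, ?_⟩, ?_⟩
  · intro d
    exact finite_of_eventually _ _ (fun n hn => rhs_coeff_zero p₀ q₀ k hk hq d n hn)
  · rintro ⟨j, hj⟩ d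
    exact finite_of_eventually _ _ (fun n hn => lhs_coeff_zero p₀ q₀ k hk hq j hj d n hn)
  · intro hl _
    obtain ⟨j, hj⟩ := hconv hl
    funext d
    unfold value
    rw [finsum_eq_of_eventually _ (k * (d.degree + 1))
        (fun n hn => lhs_coeff_zero p₀ q₀ k hk hq j hj d n hn),
      finsum_eq_of_eventually _ (k * (d.degree + 1))
        (fun n hn => rhs_coeff_zero p₀ q₀ k hk hq d n hn)]
    have h := rsum_iter (pSer p₀) (pSer p₀)⁻¹ (qSer q₀) (qSer q₀)⁻¹ (p_mul_inv p₀ hp0)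
      (q_mul_inv q₀ hq0) (k * (d.degree + 1)) (k * (d.degree + 1))
    have h1 := congrArg (MvPowerSeries.coeff d) h
    rw [map_sub, map_add, map_sum, map_sum] at h1
    have e1 : MvPowerSeries.coeff d (poch (pSer p₀)⁻¹ (qSer q₀)⁻¹ (k * (d.degree + 1)) *
        ∑ n ∈ Finset.range (k * (d.degree + 1)),
          rterm (pSer p₀ * qSer q₀ ^ (k * (d.degree + 1))) (qSer q₀)⁻¹ n) = 0 := by
      apply coeff_eq_zero_of_mem_pow (d.degree + 1) _ _ d (by omega)
      exact Ideal.mul_mem_right _ _ (poch_pq_mem p₀ q₀ k hk hq j hj _ _ le_rfl)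
    have e2 : MvPowerSeries.coeff d ((∑ i ∈ Finset.range (k * (d.degree + 1)),
        poch (pSer p₀)⁻¹ (qSer q₀)⁻¹ i * (pSer p₀ * qSer q₀ ^ i) ^ (k * (d.degree + 1))) *
        poch (qSer q₀)⁻¹ (qSer q₀)⁻¹ (k * (d.degree + 1))) = 0 := by
      apply coeff_eq_zero_of_mem_pow (d.degree + 1) _ _ d (by omega)
      exact Ideal.mul_mem_left _ _ (poch_q_mem q₀ k hk hq _ _ le_rfl)
    rw [e1, e2, add_zero, sub_zero] at h1
    exact h1.symm

end Pool.Agent.Results.MP_12a8d1_co.RootOfUnityExpansion
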